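import Pool.Agent.Helper90.MZ.StmtsC

/-!
# MP_79eb7e_lc: module FIN
-/

set_option autoImplicit false

namespace Pool.Agent.Helper90.MZ

open Pool.Agent.Helper90.TS

theorem st_FIN (hPK : ST_PK) (hIND : ST_IND) : ST_FIN := by
  intro V G _ _ X b hF hb
  obtain ⟨K, hK⟩ := hPK V G X b hF hb
  refine ⟨K, fun y w hy hw k C hC hNB => ?_⟩
  obtain ⟨J, ⟨q, hq, hqi⟩, hkJ⟩ := hK k C hC
  refine hkJ.trans (Nat.mul_le_mul_left K ?_)
  by_contra hlt
  push Not at hlt
  let e : Fin J.card ≃ J := J.equivFin.symm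
  have hmem : ∀ i, (e i : Fin k) ∈ (J : Set (Fin k)) := fun i => (e i).2
  have hI : Ind X (b ∪ ∅) (fun i : Fin J.card => (q (e i : Fin k)).A) := by
    rw [Set.union_empty]
    exact (hIND V G X b hb.countable).2.2.1 (J : Set (Fin k)) (Fin J.card)
      (fun i => (q (i : Fin k)).A) (fun i => ⟨(e i : Fin k), hmem i⟩)
      (fun i j h => e.injective (Subtype.ext (congrArg (fun x : (J : Set (Fin k)) => (x : Fin k)) h)))
      hqi
  obtain ⟨J', hJ', hS⟩ := hw ∅ Set.countable_empty si_empty_right J.card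
    (fun i : Fin J.card => (q (e i : Fin k)).A) (fun i => (hq _ (hmem i)).2.1.countable) hI
  obtain ⟨i, hi⟩ : ∃ i, i ∉ J' := by
    by_contra hcon
    push Not at hcon
    have : (Finset.univ : Finset (Fin J.card)) ⊆ J' := fun i _ => hcon i
    have := Finset.card_le_card this
    rw [Finset.card_univ, Fintype.card_fin] at this
    omega
  rw [Set.union_empty] at hS
  refine hNB (e i : Fin k) (q (e i : Fin k)) (hq _ (hmem i)).1 (hq _ (hmem i)).2.1
    (hq _ (hmem i)).2.2 ?_
  exact si_left (Set.subset_biUnion_of_mem (u := fun i : Fin J.card => (q (e i : Fin k)).A)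
    (show i ∈ {i | i ∉ J'} from hi)) hS

end Pool.Agent.Helper90.MZ
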