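import Pool.Agent.Helper90.MZ.StmtsZ

/-!
# MP_79eb7e_lc: module LOB
-/

set_option autoImplicit false

namespace Pool.Agent.Helper90.MZ

open Pool.Agent.Helper90.TS

theorem st_LOB (hLOC : ST_LOC) (hATMB : ST_ATMB) (hOPN : ST_OPN) (hISLB : ST_ISLB)
    (_ : ST_RLB) : ST_LOB := by
  intro V G _ _ X a d s t κ _ l z c M1 q hWS hsm hsi hatm hq hqM hno
  obtain ⟨S, hS⟩ : ∃ S : Set V, S = WW a z c ∪ Set.range d := ⟨_, rfl⟩
  have e0 : WW a z c ∪ Set.range d ∪ ∅ ∪ (⋃ k : Empty, Set.range ((fun k : Empty =>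
      (k.elim : Fin 1 → V)) k)) = S := by
    rw [Set.iUnion_of_empty, Set.union_empty, Set.union_empty, hS]
  have e1 : WW a z c ∪ Set.range d ∪ ∅ = S := by
    rw [Set.union_empty, hS]
  have hL := hLOC V G X a d s t κ l z c M1 ∅ Empty (fun k => k.elim) (fun k => k.elim) M1 q.A q
    hWS hsm hsi hatm (Set.empty_subset _) Set.finite_empty (fun k => k.elim)
    (fun I J _ => by
      have : (⋃ i ∈ I, (fun k : Empty => Set.range (k.elim : Fin 1 → V)) i) = ∅ := by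
        ext v
        simp
      rw [this]
      exact si_empty_left)
    (by rw [e0]; exact hS ▸ hatm) hqM hq.2.1 hq.1 le_rfl hno (fun k => k.elim)
  rw [e0] at hL
  obtain ⟨F, hFS, hF, hFy⟩ := hL
  rw [← hS]
  refine ⟨F ∪ q.A, Set.union_subset_union_left _ hFS, hF.union hq.2.1, Set.subset_union_right, ?_⟩
  intro y hyM hy
  rw [Set.union_comm] at hy
  have h1 := hFy y hy
  have hSc : (q.A ∪ S).Countable := by
    refine (hatm.1.1).mono (Set.union_subset hqM ?_)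
    rw [hS]
    exact hatm.2.1
  have h2 : Atm X (S ∪ q.A) M1 := (hATMB V G X S M1).1 (hS ▸ hatm) q.A hqM hq.2.1
  have h3 : Isl X (S ∪ q.A) y := (hATMB V G X (S ∪ q.A) M1).2.2.2.2.2 h2 (Fin 1) y hyM
  rw [Set.union_comm] at h3
  have h4 : Isl X q.A y := hOPN V G X q.A (q.A ∪ S) Set.subset_union_left hSc (Fin 1) y h3 h1.2
  exact hq.2.2 ((hISLB V G X q.A hq.2.1.countable (Fin 1) y).2.2.2.2.2.2 q.z (eqv_symm h1.1) h4)

end Pool.Agent.Helper90.MZ
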