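import Pool.Agent.Helper90.MZ.StmtsA

/-!
# MP_79eb7e_lc: module OFA
-/

set_option autoImplicit false

namespace Pool.Agent.Helper90.MZ

open Pool.Agent.Helper90.TS

theorem st_OFA (hNWO : ST_NWO) (hEXCH : ST_EXCH) (hDOM : ST_DOM) (hPRIM : ST_PRIM)
    (hMDLB : ST_MDLB) (hRLB : ST_RLB) : ST_OFA := by
  intro V G _ _ X
  refine ⟨?_, ?_, ?_⟩
  · intro p M E E' h1 h2 B hB hMB b hb y hy
    rcases hb with hb | hb
    · exact h1 B hB hMB b hb y hy
    · exact h2 B hB hMB b hb y hy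
  · intro p M E E' hEE h1 B hB hMB b hb y hy
    exact h1 B hB hMB b (hEE hb) y hy
  · intro p p' M E hp hp' hno hM hE hOr B hB hMB b hb y' hy'
    have hr : ∀ {ι : Type} [Countable ι] (y : ι → V), (Set.range y).Countable :=
      fun y => Set.countable_range y
    have hA' : (p'.A ∪ B).Countable := hp'.cnt.union hB
    by_contra hnot
    -- a model
    have hC0 : (p'.A ∪ B ∪ p.A).Countable := hA'.union hp.cnt
    obtain ⟨N0, hN0, hN0s, -⟩ := (hMDLB V G X).2.1 (p'.A ∪ B ∪ p.A) ∅ (p'.A ∪ B ∪ p.A) le_rfl hC0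
      Set.countable_empty si_empty_right
    have hs1 : p'.A ∪ B ⊆ N0 := Set.subset_union_left.trans hN0s
    have hs2 : p'.A ⊆ N0 := Set.subset_union_left.trans hs1
    have hs3 : B ⊆ N0 := Set.subset_union_right.trans hs1
    have hs4 : p.A ⊆ N0 := Set.subset_union_right.trans hN0s
    obtain ⟨h, hh, hsi⟩ := si_ex (X := X) (A := p'.A ∪ B) (B := Set.range y' ∪ Set.range b)
      (C := N0) hA' ((hr y').union (hr b)) hN0.1
    rw [tr_union, tr_range, tr_range] at hsi
    have hhp : h ∈ Fx G p'.A := (fx_union.1 hh).1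
    have hhB : h ∈ Fx G B := (fx_union.1 hh).2
    have hbE : h • b ∈ E := hE.2 h (fx_anti hMB hhB) b hb
    have hn1 : ¬ SI X (p'.A ∪ B) (Set.range (h • y')) (Set.range (h • b)) := by
      intro h1
      rw [← tr_range, ← tr_range] at h1
      exact hnot ((si_fx (X := X) hA' (hr y') (hr b) hh).1 h1)
    have hy1 : Rl X p' B (h • y') := by
      refine ⟨eqv_trans hy'.1 ⟨h, hhp, rfl⟩, ?_⟩
      have := (si_fx_left (X := X) hp'.cnt (hr y') hB hh).2 hy'.2
      rwa [tr_range] at this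
    have hy2 : SI X (p'.A ∪ B) (Set.range (h • y')) N0 := si_left Set.subset_union_left hsi
    have hy3 : Rl X p' N0 (h • y') := by
      have h1 := (hRLB V G X p' hp' B hB).2.2.2.1 _ N0 hN0.1 hy1 hy2
      exact (hRLB V G X p' hp' (B ∪ N0) (hB.union hN0.1)).2.2.1 _ h1 N0
        (Set.subset_union_right.trans Set.subset_union_right)
    have hn2 : ¬ SI X N0 (Set.range (h • y')) (Set.range (h • b)) := by
      intro h1
      have h2 := si_trans' (hr (h • y')) hN0.1 (hr (h • b)) hs1 hy2 h1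
      exact hn1 (si_right hA' (hr _) (hN0.1.union (hr _)) Set.subset_union_right h2)
    -- the atomic model
    have hC1 : (N0 ∪ Set.range (h • y')).Countable := hN0.1.union (hr _)
    obtain ⟨N1, hN1, hN1s, -⟩ := (hMDLB V G X).2.1 (N0 ∪ Set.range (h • y')) ∅
      (N0 ∪ Set.range (h • y')) le_rfl hC1 Set.countable_empty si_empty_right
    obtain ⟨N', -, hN'⟩ := hPRIM V G X (N0 ∪ Set.range (h • y')) N1 hN1 hN1s
    have hN's : N0 ⊆ N' := Set.subset_union_left.trans hN'.2.1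
    have hy's : Set.range (h • y') ⊆ N' := Set.subset_union_right.trans hN'.2.1
    obtain ⟨y, hyN, hy⟩ := hNWO V G X p p' N0 N' (h • y') hp hp' hno hN0 hs4 hs2 hy3 hN'.1 hN's hy's
    obtain ⟨-, -, -, hat⟩ := hEXCH V G X p p' N0 N' y (h • y') hp hp' hN0 hs4 hs2 hy3 hN' hyN hy
    have h5 := hOr N0 hN0.1 (hMB.trans hs3) (h • b) hbE y hy
    rw [Set.union_eq_self_of_subset_left hs4] at h5
    have h6 := (hDOM V G X N0 (Set.range y) (Set.range (h • b)) N' hN0 (hr _) (hr _) hat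
      (si_symm hN0.1 (hr _) (hr _) h5)).1
    have h7 := si_right hN0.1 (hr _) hN'.1.1 hy's h6
    exact hn2 (si_symm hN0.1 (hr _) (hr _) h7)

end Pool.Agent.Helper90.MZ
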