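import Pool.Agent.Helper90.MZ.StmtsA

/-!
# MP_79eb7e_lc: module SRX
-/

set_option autoImplicit false

namespace Pool.Agent.Helper90.MZ

open Pool.Agent.Helper90.TS

theorem st_SRX (hSRMIN : ST_SRMIN) (hMDLB : ST_MDLB) : ST_SRX := by
  intro V G _ _ X M N hM hN hMN hne
  obtain ⟨v, hvN, hvM⟩ : ∃ v, v ∈ N ∧ v ∉ M := by
    by_contra hcon
    push Not at hcon
    exact hne (le_antisymm hMN fun v hv => hcon v hv)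
  let P : Ordinal.{0} → Prop := fun α => ∃ E : Set (Fin 1 → V), X.Ov M E ∧
    (∃ y ∈ E, Set.range y ⊆ N ∧ ¬ Set.range y ⊆ M) ∧ ∀ β : Ordinal.{0}, X.Rge β E ↔ β ≤ α
  have hP : ∃ α, P α := by
    obtain ⟨B, hB, hvB⟩ := ov_sort (X := X) (fun _ : Fin 1 => v)
    obtain ⟨ρ, hρ⟩ := a_rfin V G X (Fin 1) B hB.1 ⟨_, hvB⟩
    refine ⟨ρ, B, ov_mono X (Set.empty_subset _) hB, ⟨_, hvB, ?_, ?_⟩, hρ⟩
    · rintro _ ⟨i, rfl⟩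
      exact hvN
    · intro h
      exact hvM (h ⟨0, rfl⟩)
  obtain ⟨α, ⟨E0, hE0, ⟨x, hxE, hxN, hxM⟩, hE0r⟩, hmin⟩ : ∃ α, P α ∧ ∀ β < α, ¬ P β := by
    obtain ⟨α, hα, hmin⟩ := WellFounded.has_min (wellFounded_lt (α := Ordinal.{0})) {α | P α} hP
    exact ⟨α, hα, fun β hβ hPβ => hmin β hPβ hβ⟩
  have hall : ∀ E : Set (Fin 1 → V), X.Ov M E →
      (∃ y ∈ E, Set.range y ⊆ N ∧ ¬ Set.range y ⊆ M) → X.Rge α E := by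
    rintro E hE ⟨y, hyE, hy⟩
    obtain ⟨ρ, hρ⟩ := a_rfin V G X (Fin 1) E hE.1 ⟨_, hyE⟩
    refine (hρ α).2 ?_
    by_contra hlt
    exact hmin ρ (not_le.1 hlt) ⟨E, hE, ⟨y, hyE, hy⟩, hρ⟩
  obtain ⟨h1, h2, -, -, -, -⟩ := a_rkb V G X (Fin 1) x
  have hrk : X.rk M x = α := by
    refine le_antisymm ?_ ?_
    · refine h2 M E0 α hE0 hxE ?_
      rw [hE0r]
      exact not_le.2 (Order.lt_succ α)
    · obtain ⟨D, hD, hxD, hDr⟩ := h1 M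
      exact (hDr α).1 (hall D hD ⟨x, hxD, hxN, hxM⟩)
  obtain ⟨D, hD, hxD, hDg⟩ := (hMDLB V G X).2.2.2.1 M hM (Fin 1) x
  rw [hrk] at hDg
  have := hSRMIN V G X M N D α x hM hN hMN hD hDg hxD hxN hxM hall
  exact ⟨⟨M, D, x⟩, this.1, rfl, hxN, hxM⟩

end Pool.Agent.Helper90.MZ
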