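import Pool.Agent.Helper90.MZ.StmtsC

/-!
# MP_79eb7e_lc: module TA
-/

set_option autoImplicit false

namespace Pool.Agent.Helper90.MZ

open Pool.Agent.Helper90.TS

section

variable {V G : Type} [Group G] [MulAction G V] {X : Ctx V G}

/-- unions of members of an independent family over `A ∪ e` -/
theorem ta_ini {A e : Set V} {S : ℕ → Set V} (hA : A.Countable) (he : e.Countable)
    (hS : ∀ i, (S i).Countable) (hI : Ind X (A ∪ e) S) (h : ∀ i, SI X A (S i) e) (n : ℕ) :
    SI X A (⋃ j ∈ {j : ℕ | j < n}, S j) e := by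
  have hU : ∀ s : Set ℕ, (⋃ j ∈ s, S j).Countable := fun s =>
    Set.Countable.biUnion s.to_countable fun i _ => hS i
  induction n with
  | zero =>
    have : (⋃ j ∈ {j : ℕ | j < 0}, S j) = ∅ := by simp
    rw [this]
    exact si_empty_left
  | succ n ih =>
    have e1 : (⋃ j ∈ {j : ℕ | j < n + 1}, S j) = (⋃ j ∈ {j : ℕ | j < n}, S j) ∪ S n := by
      ext v
      simp only [Set.mem_iUnion, Set.mem_union, Set.mem_ofPred_eq, exists_prop]
      constructor
      · rintro ⟨j, hj, hv⟩
        rcases Nat.lt_succ_iff_lt_or_eq.1 hj with h | rfl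
        · exact Or.inl ⟨j, h, hv⟩
        · exact Or.inr hv
      · rintro (⟨j, hj, hv⟩ | hv)
        · exact ⟨j, by omega, hv⟩
        · exact ⟨n, by omega, hv⟩
    rw [e1]
    refine si_transl hA (hU _) he (hS n) ih ?_
    have h1 : SI X (A ∪ e) (S n) (⋃ j ∈ {j : ℕ | j < n}, S j) := by
      have := hI {n} {j | j < n} (by
        rw [Set.disjoint_left]
        intro a ha hb
        rw [Set.mem_singleton_iff] at ha
        subst ha
        exact absurd hb (by simp))
      simpa using this
    have h2 := si_trans hA (hS n) he (hU _) (h n) h1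
    rw [Set.union_comm e] at h2
    exact ((si_union hA (hS n) (hU _) he).1 h2).2

end

theorem st_TA (hTL : ST_TL) (hWT : ST_WT) (hIND : ST_IND) (hRLB : ST_RLB) : ST_TA := by
  intro V G _ _ X p B C e z hp ht hB hC he hCe hz hze
  by_contra hcon
  push Not at hcon
  have hA : (p.A ∪ B).Countable := hp.cnt.union hB
  have hec : e.Countable := he.countable
  have hr : ∀ y : Fin 1 → V, (Set.range y).Countable := fun y => Set.countable_range y
  have hT : (C ∪ Set.range z).Countable := hC.union (hr z)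
  obtain ⟨w, hw⟩ := hWT V G X (p.A ∪ B) e hA he
  obtain ⟨g, hg, hgi, -⟩ := (hIND V G X (p.A ∪ B ∪ e) (hA.union hec)).2.2.2.2.2.1
    (fun _ => C ∪ Set.range z) ∅ (fun _ => hT) Set.countable_empty
  have hgA : ∀ i, g i ∈ Fx G (p.A ∪ B) := fun i => (fx_union.1 (hg i)).1
  have hgp : ∀ i, g i ∈ Fx G p.A := fun i => (fx_union.1 (hgA i)).1
  have hgB : ∀ i, g i ∈ Fx G B := fun i => (fx_union.1 (hgA i)).2
  obtain ⟨c, hc⟩ : ∃ c : ℕ → Set V, ∀ i, c i = tr (g i) C := ⟨fun i => tr (g i) C, fun _ => rfl⟩
  obtain ⟨y, hy⟩ : ∃ y : ℕ → Fin 1 → V, ∀ i, y i = g i • z := ⟨fun i => g i • z, fun _ => rfl⟩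
  have hcc : ∀ i, (c i).Countable := fun i => by
    rw [hc]
    exact tr_countable _ hC
  have hS : ∀ i, (c i ∪ Set.range (y i)).Countable := fun i => (hcc i).union (hr _)
  have hI : Ind X (p.A ∪ B ∪ e) (fun i => c i ∪ Set.range (y i)) := by
    have e1 : (fun i => c i ∪ Set.range (y i)) = fun i => tr (g i) (C ∪ Set.range z) := by
      funext i
      rw [hc, hy, tr_union, tr_range]
    rw [e1]
    exact hgi
  -- (a)
  have ha : ∀ i, SI X (p.A ∪ B) (c i) e := fun i => by
    rw [hc]
    exact (si_fx_left hA hC hec (hg i)).2 hCe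
  -- (b)
  have hb : ∀ i, Rl X p (B ∪ c i) (y i) := fun i => by
    refine ⟨?_, ?_⟩
    · rw [hy]
      exact eqv_trans hz.1 ⟨g i, hgp i, rfl⟩
    · have := (si_fx (X := X) hp.cnt (hr z) (hB.union hC) (hgp i)).2 hz.2
      rwa [tr_range, tr_union, tr_fx (hgB i), ← hc, ← hy] at this
  have hb0 : ∀ i, Rl X p B (y i) := fun i =>
    (hRLB V G X p hp (B ∪ c i) (hB.union (hcc i))).2.2.1 _ (hb i) B
      (Set.subset_union_left.trans Set.subset_union_right)
  -- (c)
  have hyc : ∀ i, SI X (p.A ∪ B) (Set.range (y i)) (c i) := fun i =>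
    (hRLB V G X p hp B hB).2.2.2.2.1 _ (c i) (hcc i) (hb i)
  -- (d)
  have hye : ∀ i, SI X (p.A ∪ B) (Set.range (y i)) e := fun i => hcon _ (hb0 i)
  -- (e)
  have hne : ∀ i, ¬ SI X (p.A ∪ B) (c i ∪ Set.range (y i)) e := by
    intro i hh
    have h1 : SI X (p.A ∪ B) (tr (g i) (C ∪ Set.range z)) e := by
      rw [tr_union, tr_range, ← hc, ← hy]
      exact hh
    have h2 := (si_fx_left (X := X) hA hT hec (hg i)).1 h1
    exact hze ((si_unionl hA hC hec (hr z)).1 h2).2
  have hU : ∀ s : Set ℕ, (⋃ j ∈ s, c j).Countable := fun s =>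
    Set.Countable.biUnion s.to_countable fun i _ => hcc i
  have hUS : ∀ s : Set ℕ, (⋃ j ∈ s, (c j ∪ Set.range (y j))).Countable := fun s =>
    Set.Countable.biUnion s.to_countable fun i _ => hS i
  -- the `c i` are independent over `A ∪ e`
  have hIc : Ind X (p.A ∪ B ∪ e) c := by
    intro I J hIJ
    have h1 : ∀ s : Set ℕ, (⋃ j ∈ s, c j) ⊆ ⋃ j ∈ s, (c j ∪ Set.range (y j)) := fun s =>
      Set.iUnion₂_mono fun j _ => Set.subset_union_left
    exact si_right (hA.union hec) (hU _) (hUS _) (h1 J) (si_left (h1 I) (hI I J hIJ))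
  have hcE : ∀ n, SI X (p.A ∪ B) (⋃ j ∈ {j : ℕ | j < n}, c j) e := fun n =>
    ta_ini hA hec hcc hIc ha n
  -- (F)
  have hF : ∀ i n, SI X (p.A ∪ B) (Set.range (y i)) (⋃ j ∈ {j : ℕ | j < n}, c j) := by
    intro i n
    have h1 : SI X (p.A ∪ B ∪ e) (⋃ j ∈ {j : ℕ | j < n ∧ j ≠ i}, c j) (c i ∪ Set.range (y i)) := by
      have h0 := hI {j : ℕ | j < n ∧ j ≠ i} {i} (by
        rw [Set.disjoint_left]
        rintro a ⟨_, ha⟩ hb
        exact ha hb)
      simp only [Set.mem_singleton_iff, Set.iUnion_iUnion_eq_left] at h0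
      exact si_left (Set.iUnion₂_mono fun j _ => Set.subset_union_left) h0
    have hsub : (⋃ j ∈ {j : ℕ | j < n ∧ j ≠ i}, c j) ⊆ ⋃ j ∈ {j : ℕ | j < n}, c j :=
      Set.biUnion_subset_biUnion_left fun j hj => hj.1
    have h2 : SI X (p.A ∪ B) (⋃ j ∈ {j : ℕ | j < n ∧ j ≠ i}, c j) e := si_left hsub (hcE n)
    have h3 := si_trans hA (hU _) hec (hS i) h2 h1
    have h4 := si_right hA (hU _) (hec.union (hS i)) Set.subset_union_right h3
    have h5 := si_symm hA (hU _) (hS i) h4
    have h6 := ((si_unionl hA (hcc i) (hU _) (hr _)).1 h5).2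
    have h7 := si_trans hA (hr _) (hcc i) (hU _) (hyc i) h6
    refine si_right hA (hr _) ((hcc i).union (hU _)) ?_ h7
    intro v hv
    simp only [Set.mem_iUnion, Set.mem_ofPred_eq, exists_prop] at hv
    obtain ⟨j, hj, hv⟩ := hv
    by_cases hji : j = i
    · subst hji
      exact Or.inl hv
    · right
      simp only [Set.mem_iUnion, Set.mem_ofPred_eq, exists_prop]
      exact ⟨j, ⟨hj, hji⟩, hv⟩
  -- pairwise independence over `A`
  have hpw : ∀ i k, i ≠ k → SI X (p.A ∪ B) (Set.range (y i)) (Set.range (y k)) := by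
    intro i k hik
    have h0 := hI {i} {k} (Set.disjoint_singleton.2 hik)
    simp only [Set.mem_singleton_iff, Set.iUnion_iUnion_eq_left] at h0
    have h1 : SI X (p.A ∪ B ∪ e) (Set.range (y i)) (Set.range (y k)) :=
      si_right (hA.union hec) (hr _) (hS k) Set.subset_union_right
        (si_left Set.subset_union_right h0)
    have h2 := si_trans hA (hr _) hec (hr _) (hye i) h1
    exact si_right hA (hr _) (hec.union (hr _)) Set.subset_union_right h2
  -- the claim
  have hclaim : Ind X (p.A ∪ B) (fun i => c i ∪ Set.range (y i)) := by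
    refine (hIND V G X (p.A ∪ B) hA).1 _ hS fun k => ?_
    -- step 3
    have h3 : SI X (p.A ∪ B) (c k) (⋃ j ∈ {j : ℕ | j < k}, (c j ∪ Set.range (y j))) := by
      have h0 := hI {k} {j : ℕ | j < k} (by
        rw [Set.disjoint_left]
        intro a ha hb
        rw [Set.mem_singleton_iff] at ha
        subst ha
        exact absurd hb (by simp))
      simp only [Set.mem_singleton_iff, Set.iUnion_iUnion_eq_left] at h0
      have h1 := si_trans hA (hcc k) hec (hUS _) (ha k) (si_left Set.subset_union_left h0)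
      exact si_right hA (hcc k) (hec.union (hUS _)) Set.subset_union_right h1
    -- step 4
    obtain ⟨D, hD⟩ : ∃ D : Set V, D = ⋃ j ∈ {j : ℕ | j < k + 1}, c j := ⟨_, rfl⟩
    have hDc : D.Countable := hD ▸ hU _
    have hyD : ∀ i, SI X (p.A ∪ B) (Set.range (y i)) D := fun i => hD ▸ hF i (k + 1)
    have hrD : ∀ i, Rl X p (B ∪ D) (y i) := fun i =>
      (hRLB V G X p hp B hB).2.2.2.1 _ D hDc (hb0 i) (hyD i)
    have hpD : ∀ i l, i ≠ l → SI X (p.A ∪ (B ∪ D)) (Set.range (y i)) (Set.range (y l)) := by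
      intro i l hil
      have h5 : SI X (p.A ∪ B) (⋃ a : Fin 2, Set.range (![y i, y l] a)) D := by
        refine hTL V G X p B D (Fin 2) ![y i, y l] hp ht hB hDc ?_ ?_ ?_
        · intro a
          fin_cases a
          · exact hb0 i
          · exact hb0 l
        · refine ht B hB 2 ![y i, y l] ?_ ?_
          · intro a
            fin_cases a
            · exact hb0 i
            · exact hb0 l
          · intro a b hab
            fin_cases a <;> fin_cases b
            · exact absurd rfl hab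
            · exact hpw i l hil
            · exact hpw l i hil.symm
            · exact absurd rfl hab
        · intro a
          fin_cases a
          · exact hyD i
          · exact hyD l
      have h6 : SI X (p.A ∪ B) (Set.range (y l) ∪ Set.range (y i)) D := by
        refine si_left ?_ h5
        rintro v (hv | hv)
        · exact Set.mem_iUnion.2 ⟨1, hv⟩
        · exact Set.mem_iUnion.2 ⟨0, hv⟩
      have h7 := ((si_unionl hA (hr _) hDc (hr _)).1 h6).2
      have h8 := si_trans hA (hr _) (hr _) hDc (hpw i l hil) h7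
      rw [Set.union_comm (Set.range (y l)) D] at h8
      have h9 := ((si_union hA (hr _) hDc (hr _)).1 h8).2
      rwa [Set.union_assoc] at h9
    have hID : Ind X (p.A ∪ (B ∪ D)) (fun i : Fin (k + 1) => Set.range (y i)) :=
      ht (B ∪ D) (hB.union hDc) (k + 1) (fun i => y i) (fun i => hrD i)
        fun i l hil => hpD i l fun h => hil (Fin.ext h)
    have h4 : SI X (p.A ∪ B ∪ D) (Set.range (y k)) (⋃ j ∈ {j : ℕ | j < k}, Set.range (y j)) := by
      have h0 := hID {Fin.last k} {i | (i : ℕ) < k} (by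
        rw [Set.disjoint_left]
        intro a ha hb
        rw [Set.mem_singleton_iff] at ha
        subst ha
        exact absurd hb (by simp))
      simp only [Set.mem_singleton_iff, Set.iUnion_iUnion_eq_left] at h0
      have e1 : (⋃ j ∈ {i : Fin (k + 1) | (i : ℕ) < k}, Set.range (y j)) =
          ⋃ j ∈ {j : ℕ | j < k}, Set.range (y j) := by
        ext v
        simp only [Set.mem_iUnion, Set.mem_ofPred_eq, exists_prop]
        constructor
        · rintro ⟨i, hi, hv⟩
          exact ⟨i, hi, hv⟩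
        · rintro ⟨i, hi, hv⟩
          exact ⟨⟨i, by omega⟩, hi, hv⟩
      rw [e1, ← Set.union_assoc] at h0
      exact h0
    -- step 5
    have hUy : (⋃ j ∈ {j : ℕ | j < k}, Set.range (y j)).Countable :=
      Set.Countable.biUnion (Set.to_countable _) fun i _ => hr _
    have h5 := si_trans hA (hr _) hDc hUy (hyD k) h4
    have h6 : SI X (p.A ∪ B) (Set.range (y k))
        (c k ∪ ⋃ j ∈ {j : ℕ | j < k}, (c j ∪ Set.range (y j))) := by
      refine si_right hA (hr _) (hDc.union hUy) ?_ h5
      rintro v (hv | hv)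
      · left
        rw [hD]
        simp only [Set.mem_iUnion, Set.mem_ofPred_eq, exists_prop]
        exact ⟨k, by omega, hv⟩
      · simp only [Set.mem_iUnion, Set.mem_ofPred_eq, exists_prop] at hv
        obtain ⟨j, hj, hv | hv⟩ := hv
        · left
          rw [hD]
          simp only [Set.mem_iUnion, Set.mem_ofPred_eq, exists_prop]
          exact ⟨j, by omega, hv⟩
        · right
          simp only [Set.mem_iUnion, Set.mem_ofPred_eq, exists_prop]
          exact ⟨j, hj, hv⟩
    have h7 := ((si_union hA (hr _) (hcc k) (hUS _)).1 h6).2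
    exact si_transl hA (hcc k) (hUS _) (hr _) h3 h7
  -- contradiction to the weight
  have hfin : Ind X (p.A ∪ B ∪ ∅) (fun i : Fin (w + 1) => c i ∪ Set.range (y i)) := by
    rw [Set.union_empty]
    exact (hIND V G X (p.A ∪ B) hA).2.2.1 ℕ (Fin (w + 1)) (fun i => c i ∪ Set.range (y i))
      (fun i => (i : ℕ)) Fin.val_injective hclaim
  obtain ⟨J, hJ, hJS⟩ := hw ∅ Set.countable_empty si_empty_right (w + 1) _ (fun i => hS _) hfin
  obtain ⟨i, hiJ⟩ : ∃ i, i ∉ J := by
    by_contra hcon
    push Not at hcon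
    have : (Finset.univ : Finset (Fin (w + 1))) ⊆ J := fun i _ => hcon i
    have := Finset.card_le_card this
    rw [Finset.card_univ, Fintype.card_fin] at this
    omega
  rw [Set.union_empty] at hJS
  exact hne i (si_left (Set.subset_biUnion_of_mem (u := fun i : Fin (w + 1) =>
    c i ∪ Set.range (y i)) (show i ∈ {i | i ∉ J} from hiJ)) hJS)

end Pool.Agent.Helper90.MZ
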