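import Pool.Agent.Helper90.MZ.StmtsC

/-!
# MP_79eb7e_lc: module TL
-/

set_option autoImplicit false

namespace Pool.Agent.Helper90.MZ

open Pool.Agent.Helper90.TS

/-- finite case -/
theorem tl_fin (hWT : ST_WT) (hIND : ST_IND) (V G : Type) [Group G] [MulAction G V]
    (X : Ctx V G) (p : Ty V) (B Y : Set V) (m : ℕ) (z : Fin m → Fin 1 → V) (hp : SR X p)
    (ht : Triv X p) (hB : B.Countable) (hY : Y.Finite) (hz : ∀ i, Rl X p B (z i))
    (hi : Ind X (p.A ∪ B) (fun i => Set.range (z i)))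
    (hzY : ∀ i, SI X (p.A ∪ B) (Set.range (z i)) Y) :
    SI X (p.A ∪ B) (⋃ i, Set.range (z i)) Y := by
  have hA : (p.A ∪ B).Countable := hp.cnt.union hB
  have hr : ∀ y : Fin 1 → V, (Set.range y).Countable := fun y => Set.countable_range y
  have hZc : (⋃ i, Set.range (z i)).Countable := Set.countable_iUnion fun i => hr _
  by_contra hnot
  obtain ⟨w, hw⟩ := hWT V G X (p.A ∪ B) Y hA hY
  obtain ⟨g, hg, hgi, -⟩ := (hIND V G X (p.A ∪ B ∪ Y) (hA.union hY.countable)).2.2.2.2.2.1
    (fun _ => ⋃ i, Set.range (z i)) ∅ (fun _ => hZc) Set.countable_empty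
  have hgA : ∀ i, g i ∈ Fx G (p.A ∪ B) := fun i => (fx_union.1 (hg i)).1
  have hgY : ∀ i, g i ∈ Fx G Y := fun i => (fx_union.1 (hg i)).2
  have hgp : ∀ i, g i ∈ Fx G p.A := fun i => (fx_union.1 (hgA i)).1
  -- translates realize
  have hzr : ∀ i j, Rl X p B (g i • z j) := by
    intro i j
    refine ⟨eqv_trans (hz j).1 ⟨g i, hgp i, rfl⟩, ?_⟩
    have := (si_fx_left (X := X) hp.cnt (hr (z j)) hB (hgA i)).2 (hz j).2
    rwa [tr_range] at this
  have hzr' : ∀ i j, SI X (p.A ∪ B) (Set.range (g i • z j)) Y := by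
    intro i j
    have := (si_fx_left (X := X) hA (hr (z j)) hY.countable (hg i)).2 (hzY j)
    rwa [tr_range] at this
  -- enumeration
  let N := (w + 1) * m
  let e : Fin (w + 1) × Fin m ≃ Fin N := finProdFinEquiv
  let y : Fin N → Fin 1 → V := fun k => g ((e.symm k).1 : ℕ) • z (e.symm k).2
  have hpair : ∀ a b : Fin (w + 1) × Fin m, a ≠ b →
      SI X (p.A ∪ B) (Set.range (g (a.1 : ℕ) • z a.2)) (Set.range (g (b.1 : ℕ) • z b.2)) := by
    rintro ⟨i, j⟩ ⟨k, l⟩ hab
    show SI X (p.A ∪ B) (Set.range (g (i : ℕ) • z j)) (Set.range (g (k : ℕ) • z l))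
    by_cases hik : i = k
    · subst hik
      have hjl : j ≠ l := fun h => hab (by rw [h])
      have h1 : SI X (p.A ∪ B) (Set.range (z j)) (Set.range (z l)) := by
        have := hi {j} {l} (Set.disjoint_singleton.2 hjl)
        simpa using this
      have h2 := (si_fx (X := X) hA (hr (z j)) (hr (z l)) (hgA i)).2 h1
      rwa [tr_range, tr_range] at h2
    · have h1 := hgi {(i : ℕ)} {(k : ℕ)} (Set.disjoint_singleton.2 fun h => hik (Fin.ext h))
      simp only [Set.mem_singleton_iff, Set.iUnion_iUnion_eq_left] at h1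
      have hsub : ∀ (i : ℕ) (j : Fin m), Set.range (g i • z j) ⊆ tr (g i) (⋃ i, Set.range (z i)) := by
        intro i j
        rw [← tr_range]
        exact tr_mono _ (Set.subset_iUnion (fun i => Set.range (z i)) j)
      have h2 : SI X (p.A ∪ B ∪ Y) (Set.range (g (i : ℕ) • z j)) (Set.range (g (k : ℕ) • z l)) :=
        si_right (hA.union hY.countable) (hr _) (tr_countable _ hZc) (hsub _ _)
          (si_left (hsub _ _) h1)
      have h3 := si_trans hA (hr _) hY.countable (hr _) (hzr' i j) h2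
      exact si_right hA (hr _) (hY.countable.union (hr _)) Set.subset_union_right h3
  have hI : Ind X (p.A ∪ B) (fun k => Set.range (y k)) := by
    refine ht B hB N y (fun k => hzr _ _) fun k l hkl => ?_
    exact hpair _ _ fun h => hkl (e.symm.injective h)
  have hI2 : Ind X (p.A ∪ B ∪ ∅) (fun i : Fin (w + 1) => tr (g (i : ℕ)) (⋃ i, Set.range (z i))) := by
    rw [Set.union_empty]
    intro I J hIJ
    have key : ∀ I : Set (Fin (w + 1)), (⋃ i ∈ I, tr (g (i : ℕ)) (⋃ i, Set.range (z i))) =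
        ⋃ k ∈ {k : Fin N | (e.symm k).1 ∈ I}, Set.range (y k) := by
      intro I
      ext v
      simp only [Set.mem_iUnion, exists_prop, tr_iUnion, tr_range]
      constructor
      · rintro ⟨i, hiI, j, hv⟩
        refine ⟨e (i, j), ?_, ?_⟩
        · show (e.symm (e (i, j))).1 ∈ I
          rw [Equiv.symm_apply_apply]
          exact hiI
        · show v ∈ Set.range (g ((e.symm (e (i, j))).1 : ℕ) • z (e.symm (e (i, j))).2)
          rw [Equiv.symm_apply_apply]
          exact hv
      · rintro ⟨k, hk, hv⟩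
        exact ⟨_, hk, _, hv⟩
    rw [key I, key J]
    refine hI _ _ ?_
    rw [Set.disjoint_left]
    intro k hk1 hk2
    exact (Set.disjoint_left.1 hIJ) hk1 hk2
  obtain ⟨J, hJ, hJS⟩ := hw ∅ Set.countable_empty si_empty_right (w + 1) _
    (fun i => tr_countable _ hZc) hI2
  obtain ⟨i, hiJ⟩ : ∃ i, i ∉ J := by
    by_contra hcon
    push Not at hcon
    have : (Finset.univ : Finset (Fin (w + 1))) ⊆ J := fun i _ => hcon i
    have := Finset.card_le_card this
    rw [Finset.card_univ, Fintype.card_fin] at this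
    omega
  have h5 : SI X (p.A ∪ B) (tr (g (i : ℕ)) (⋃ i, Set.range (z i))) Y := by
    rw [Set.union_empty] at hJS
    exact si_left (Set.subset_biUnion_of_mem (u := fun i : Fin (w + 1) =>
      tr (g (i : ℕ)) (⋃ i, Set.range (z i))) (show i ∈ {i | i ∉ J} from hiJ)) hJS
  exact hnot ((si_fx_left (X := X) hA hZc hY.countable (hg i)).1 h5)

theorem st_TL (hWT : ST_WT) (hIND : ST_IND) (_ : ST_RLB) : ST_TL := by
  intro V G _ _ X p B Y κ _ z hp ht hB hY hz hi hzY
  have hA : (p.A ∪ B).Countable := hp.cnt.union hB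
  have hr : ∀ y : Fin 1 → V, (Set.range y).Countable := fun y => Set.countable_range y
  have hZc : (⋃ i, Set.range (z i)).Countable := Set.countable_iUnion fun i => hr _
  refine si_finite hA hZc hY fun B0 C0 hB0 hC0 hB0f hC0f => ?_
  -- finitely many indices
  have h1 : ∀ b : B0, ∃ i, (b : V) ∈ Set.range (z i) := fun b => Set.mem_iUnion.1 (hB0 b.2)
  choose f hf using h1
  have hfin : Finite B0 := hB0f
  obtain ⟨m, ⟨e⟩⟩ := Finite.exists_equiv_fin (Set.range f)
  have h2 : SI X (p.A ∪ B) (⋃ i, Set.range (z (e.symm i : κ))) C0 := by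
    refine tl_fin hWT hIND V G X p B C0 m (fun i => z (e.symm i : κ)) hp ht hB hC0f
      (fun i => hz _) ?_ fun i => ?_
    · exact (hIND V G X (p.A ∪ B) hA).2.2.1 κ (Fin m) (fun i => Set.range (z i))
        (fun i => (e.symm i : κ)) (fun i j h => e.symm.injective (Subtype.ext h)) hi
    · exact si_right hA (hr _) hY hC0 (hzY _)
  refine si_left ?_ h2
  intro b hb
  rw [Set.mem_iUnion]
  refine ⟨e ⟨f ⟨b, hb⟩, ⟨b, hb⟩, rfl⟩, ?_⟩
  rw [Equiv.symm_apply_apply]
  exact hf ⟨b, hb⟩

end Pool.Agent.Helper90.MZ
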