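import Pool.Agent.Helper90.MZ.StmtsC

/-!
# MP_79eb7e_lc: module TRI
-/

set_option autoImplicit false

namespace Pool.Agent.Helper90.MZ

open Pool.Agent.Helper90.TS

theorem st_TRI (hRLB : ST_RLB) (hIND : ST_IND) : ST_TRI := by
  intro V G _ _ X p hp h3 B hB m
  have hr : ∀ y : Fin 1 → V, (Set.range y).Countable := fun y => Set.countable_range y
  induction m generalizing B with
  | zero =>
    intro y _ _
    exact (hIND V G X (p.A ∪ B) (hp.cnt.union hB)).2.1 0 _ (fun i => i.elim0) (fun i => i.elim0)
  | succ m ih =>
    intro y hy hpw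
    have hA := hp.cnt.union hB
    have hB' : (B ∪ Set.range (y 0)).Countable := hB.union (hr _)
    have hy' : ∀ i : Fin m, Rl X p (B ∪ Set.range (y 0)) (y i.succ) := fun i =>
      (hRLB V G X p hp B hB).2.2.2.1 _ _ (hr _) (hy _) (hpw _ _ (Fin.succ_ne_zero i))
    have hpw' : ∀ i j : Fin m, i ≠ j → SI X (p.A ∪ (B ∪ Set.range (y 0)))
        (Set.range (y i.succ)) (Set.range (y j.succ)) := by
      intro i j hij
      have h1 : SI X (p.A ∪ B) (Set.range (y i.succ)) (Set.range (y 0) ∪ Set.range (y j.succ)) := by
        refine h3 B hB ![y 0, y j.succ, y i.succ] ?_ ?_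
        · intro a
          fin_cases a
          · exact hy _
          · exact hy _
          · exact hy _
        · intro a b hab
          fin_cases a <;> fin_cases b
          · exact absurd rfl hab
          · exact hpw _ _ (Fin.succ_ne_zero j).symm
          · exact hpw _ _ (Fin.succ_ne_zero i).symm
          · exact hpw _ _ (Fin.succ_ne_zero j)
          · exact absurd rfl hab
          · exact hpw _ _ fun h => hij (Fin.succ_injective _ h).symm
          · exact hpw _ _ (Fin.succ_ne_zero i)
          · exact hpw _ _ fun h => hij (Fin.succ_injective _ h)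
          · exact absurd rfl hab
      have h2 := ((si_union hA (hr _) (hr _) (hr _)).1 h1).2
      rwa [Set.union_assoc] at h2
    have hI := ih (B ∪ Set.range (y 0)) hB' (fun i => y i.succ) hy' hpw'
    refine (hIND V G X (p.A ∪ B) hA).2.1 (m + 1) _ (fun i => hr _) fun i => ?_
    refine Fin.cases ?_ (fun i => ?_) i
    · have e1 : (⋃ j ∈ {j : Fin (m + 1) | j < 0}, Set.range (y j)) = ∅ := by
        ext v
        simp
      rw [e1]
      exact si_empty_right
    · have h1 : SI X (p.A ∪ (B ∪ Set.range (y 0))) (Set.range (y i.succ))
          (⋃ j ∈ {j : Fin m | j < i}, Set.range (y j.succ)) := by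
        have := hI {i} {j | j < i} (by
          rw [Set.disjoint_left]
          intro a ha hb
          rw [Set.mem_singleton_iff] at ha
          subst ha
          exact absurd hb (by simp))
        simpa using this
      rw [← Set.union_assoc] at h1
      have h2 : SI X (p.A ∪ B) (Set.range (y i.succ)) (Set.range (y 0)) :=
        hpw _ _ (Fin.succ_ne_zero i)
      have hU : (⋃ j ∈ {j : Fin m | j < i}, Set.range (y j.succ)).Countable :=
        Set.Countable.biUnion (Set.to_countable _) fun i _ => hr _
      have h4 := si_trans hA (hr _) (hr _) hU h2 h1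
      refine si_right hA (hr _) ((hr _).union hU) ?_ h4
      intro v hv
      simp only [Set.mem_iUnion, Set.mem_ofPred_eq, exists_prop] at hv
      obtain ⟨j, hj, hv⟩ := hv
      refine Fin.cases (motive := fun j => j < i.succ → v ∈ Set.range (y j) → _) ?_ ?_ j hj hv
      · intro _ hv
        exact Or.inl hv
      · intro j hj hv
        right
        simp only [Set.mem_iUnion, Set.mem_ofPred_eq, exists_prop]
        exact ⟨j, Fin.succ_lt_succ_iff.1 hj, hv⟩

end Pool.Agent.Helper90.MZ
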